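import Pool.Agent.Helper14.CV.StD

/-!
# Module Hk3 of project CV: `T_3` on the plane
-/

set_option autoImplicit false

namespace Pool.Agent.Helper16.CV

open Pool.Agent.Helper14.CV

private lemma isUnit_aux {s : ℕ} (t : ZMod (2 ^ s)) : IsUnit (1 + 2 * t) := by
  have h : IsNilpotent (2 * t) := by
    refine ⟨s, ?_⟩
    rw [mul_pow]
    have h2 : (2 : ZMod (2 ^ s)) ^ s = 0 := by
      have := ZMod.natCast_self (2 ^ s)
      push_cast at this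
      exact this
    rw [h2, zero_mul]
  exact h.isUnit_one_add

private lemma isUnit_four {s : ℕ} (z y : ZMod (2 ^ s)) : IsUnit (1 + 4 * z * y) := by
  have h := isUnit_aux (2 * z * y)
  have e : 1 + 2 * (2 * z * y) = 1 + 4 * z * y := by ring
  rwa [e] at h

private lemma isUnit_four' {s : ℕ} (z y : ZMod (2 ^ s)) : IsUnit (1 - 4 * z * y) := by
  have h := isUnit_aux (-(2 * z * y))
  have e : 1 + 2 * (-(2 * z * y)) = 1 - 4 * z * y := by ring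
  rwa [e] at h

private lemma isUnit_three {s : ℕ} : IsUnit (((3 : ℕ) : ZMod (2 ^ s))) := by
  have h := isUnit_aux (1 : ZMod (2 ^ s))
  have e : (1 : ZMod (2 ^ s)) + 2 * 1 = ((3 : ℕ) : ZMod (2 ^ s)) := by push_cast; ring
  rwa [e] at h

private lemma inv_aux {s : ℕ} {u : ZMod (2 ^ s)} (h : IsUnit u) : u * u⁻¹ = 1 :=
  ZMod.mul_inv_of_unit u h

private lemma frac_eq {s : ℕ} {U V X Y : ZMod (2 ^ s)} (hU : IsUnit U) (hV : IsUnit V)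
    (h : X * V = Y * U) : X * U⁻¹ = Y * V⁻¹ := by
  have h1 := inv_aux hU
  have h2 := inv_aux hV
  linear_combination (-(X * U⁻¹)) * h2 + (U⁻¹ * V⁻¹) * h + (Y * V⁻¹) * h1

private lemma pl_A {r s : ℕ} {x : ZMod (2 ^ r)} {y : ZMod (2 ^ s)} {a b c d : ℤ} (z : ℤ)
    (h : Pl 1 a b c d x y) :
    Pl 1 a (b + z * a) c (d + 4 * z * c) (x + (z : ZMod (2 ^ r)))
      (y * (1 + 4 * (z : ZMod (2 ^ s)) * y)⁻¹) := by
  obtain ⟨h1, h2, h3⟩ := h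
  refine ⟨by linear_combination h1, ?_, ?_⟩
  · push_cast
    rw [h2]
    ring
  · have hi := inv_aux (isUnit_four (z : ZMod (2 ^ s)) y)
    push_cast
    linear_combination (-(c : ZMod (2 ^ s))) * hi + (1 + 4 * (z : ZMod (2 ^ s)) * y)⁻¹ * h3

private lemma pl_B {r s : ℕ} {x : ZMod (2 ^ r)} {y : ZMod (2 ^ s)} {a b c d : ℤ} (z : ℤ)
    (h : Pl 1 a b c d x y) :
    Pl 1 (a + 4 * z * b) b (c + z * d) d (x * (1 + 4 * (z : ZMod (2 ^ r)) * x)⁻¹)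
      (y + (z : ZMod (2 ^ s))) := by
  obtain ⟨h1, h2, h3⟩ := h
  refine ⟨by linear_combination h1, ?_, ?_⟩
  · have hi := inv_aux (isUnit_four (z : ZMod (2 ^ r)) x)
    push_cast
    linear_combination (-(b : ZMod (2 ^ r))) * hi + (1 + 4 * (z : ZMod (2 ^ r)) * x)⁻¹ * h2
  · push_cast
    rw [h3]
    ring

private lemma cast_dvd {r s t : ℕ} (h : t ≤ r + s) {m : ℤ} (hm : (2 : ℤ) ^ (r + s) ∣ m) :
    ((m : ℤ) : ZMod (2 ^ t)) = 0 := by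
  rw [ZMod.intCast_zmod_eq_zero_iff_dvd]
  push_cast
  exact (pow_dvd_pow 2 h).trans hm

theorem hHk3 (hPlA : StPlA) (hEdg : StEdg) (hHkF : StHkF) : StHk3 := by
  intro r s G n1 n2 F1 F3 F hG hn1 hn2 hF1 hF3 hF
  have hH := hG.1
  have two : (2 : ZMod 2) = 0 := rfl
  have hE : ∀ (u1 u2 v1 v2 : ℤ), (u1 ≠ 0 ∨ u2 ≠ 0) → (v1 ≠ 0 ∨ v2 ≠ 0) →
      ∀ (x : ZMod (2 ^ r)) (y : ZMod (2 ^ s)) (a b c d : ℤ), Pl 1 a b c d x y →
      edgeF 1 u1 u2 v1 v2 G x y = G (a * u1 + 2 * b * u2) (2 * c * u1 + d * u2) -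
        G (a * v1 + 2 * b * v2) (2 * c * v1 + d * v2) := by
    intro u1 u2 v1 v2 hu hv x y a b c d h
    have := hEdg (ZMod 2) inferInstance 1 r s G hG u1 u2 v1 v2 hu hv x y a b c d h
    rw [pow_one] at this
    exact this
  have hv1 : ∀ (x : ZMod (2 ^ r)) (y : ZMod (2 ^ s)) (a b c d : ℤ), Pl 1 a b c d x y →
      F1 x y = G a (2 * c) - G (2 * b) d := by
    intro x y a b c d h
    rw [hF1, hE 1 0 0 1 (Or.inl one_ne_zero) (Or.inr one_ne_zero) x y a b c d h]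
    simp only [mul_one, mul_zero, add_zero, zero_add]
  have hv3 : ∀ (x : ZMod (2 ^ r)) (y : ZMod (2 ^ s)) (a b c d : ℤ), Pl 1 a b c d x y →
      F3 x y = G (a + 2 * b) (2 * c + d) - G (2 * b) d := by
    intro x y a b c d h
    rw [hF3, hE 1 1 0 1 (Or.inl one_ne_zero) (Or.inr one_ne_zero) x y a b c d h]
    simp only [mul_one, mul_zero, zero_add]
  -- nonzero vectors
  have hnz : ∀ (x : ZMod (2 ^ r)) (y : ZMod (2 ^ s)) (a b c d p q : ℤ), Pl 1 a b c d x y →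
      (p ≠ 0 ∨ q ≠ 0) → (a * p + 2 * b * q ≠ 0 ∨ 2 * c * p + d * q ≠ 0) := by
    intro x y a b c d p q h hpq
    refine ne_zero_of_det ?_ hpq
    have h1 := h.1
    have e : a * d - 2 * b * (2 * c) = 1 := by linear_combination h1
    rw [e]
    exact one_ne_zero
  -- the values of `C` and of the square of its inverse
  have hC : ∀ (x : ZMod (2 ^ r)) (y : ZMod (2 ^ s)) (a b c d : ℤ), Pl 1 a b c d x y →
      (opC F3) x y = G (a + 2 * b) (2 * c + d) - G (2 * a + 6 * b) (4 * c + 3 * d) := by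
    intro x y a b c d h
    have h1 := pl_A (-1) (pl_B 1 h)
    have h2 : (opC F3) x y =
        F3 (x * (1 + 4 * ((1 : ℤ) : ZMod (2 ^ r)) * x)⁻¹ + ((-1 : ℤ) : ZMod (2 ^ r)))
          ((y + ((1 : ℤ) : ZMod (2 ^ s))) * (1 + 4 * ((-1 : ℤ) : ZMod (2 ^ s)) *
            (y + ((1 : ℤ) : ZMod (2 ^ s))))⁻¹) := rfl
    rw [h2, hv3 _ _ _ _ _ _ h1]
    have e1 := hH (-1) (a + 2 * b) (2 * c + d) (by norm_num)
      (by have := hnz x y a b c d 1 1 h (Or.inl one_ne_zero)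
          simpa only [mul_one] using this)
    have e2 := hH (-1) (2 * a + 6 * b) (4 * c + 3 * d) (by norm_num)
      (by have := hnz x y a b c d 2 3 h (Or.inl two_ne_zero)
          have q1 : a * 2 + 2 * b * 3 = 2 * a + 6 * b := by ring
          have q2 : 2 * c * 2 + d * 3 = 4 * c + 3 * d := by ring
          rwa [q1, q2] at this)
    rw [← e1, ← e2]
    congr 1
    · congr 1 <;> ring
    · congr 1 <;> ring
  have hC2 : ∀ (x : ZMod (2 ^ r)) (y : ZMod (2 ^ s)) (a b c d : ℤ), Pl 1 a b c d x y →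
      (opC' (opC' F3)) x y = G (a + 2 * b) (2 * c + d) - G (4 * a + 6 * b) (8 * c + 3 * d) := by
    intro x y a b c d h
    have h1 := pl_B (-1) (pl_A 1 (pl_B (-1) (pl_A 1 h)))
    have h0 : ∀ (K : Fn (2 ^ r) (2 ^ s)) (x : ZMod (2 ^ r)) (y : ZMod (2 ^ s)), (opC' K) x y =
        K ((x + ((1 : ℤ) : ZMod (2 ^ r))) * (1 + 4 * ((-1 : ℤ) : ZMod (2 ^ r)) *
            (x + ((1 : ℤ) : ZMod (2 ^ r))))⁻¹)
          (y * (1 + 4 * ((1 : ℤ) : ZMod (2 ^ s)) * y)⁻¹ + ((-1 : ℤ) : ZMod (2 ^ s))) :=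
      fun _ _ _ => rfl
    rw [h0, h0, hv3 _ _ _ _ _ _ h1]
    have e2 := hH (-1) (4 * a + 6 * b) (8 * c + 3 * d) (by norm_num)
      (by have := hnz x y a b c d 4 3 h (Or.inl (by norm_num))
          have q1 : a * 4 + 2 * b * 3 = 4 * a + 6 * b := by ring
          have q2 : 2 * c * 4 + d * 3 = 8 * c + 3 * d := by ring
          rwa [q1, q2] at this)
    rw [← e2]
    congr 1
    · congr 1 <;> ring
    · congr 1 <;> ring
  -- congruences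
  have k1 : ∀ t : ℕ, t ≤ r + s → (3 : ZMod (2 ^ t)) * (n1 : ZMod (2 ^ t)) + 1 = 0 := by
    intro t ht
    have := cast_dvd ht hn1
    push_cast at this
    exact this
  have k2 : ∀ t : ℕ, t ≤ r + s → (3 : ZMod (2 ^ t)) * (n2 : ZMod (2 ^ t)) + 2 = 0 := by
    intro t ht
    have := cast_dvd ht hn2
    push_cast at this
    exact this
  have i3r : (3 : ZMod (2 ^ r)) * ((3 : ℕ) : ZMod (2 ^ r))⁻¹ = 1 := by
    have := inv_aux (isUnit_three (s := r))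
    push_cast at this ⊢
    exact this
  funext x y
  have hJ := hHkF (ZMod 2) inferInstance r s 3 G {0, 1, -1} Nat.prime_three (by norm_num) hG
    (by decide) (by decide) x y
  rw [hF, hJ]
  have hsum : ∀ f : ℤ → ZMod 2, ∑ j ∈ ({0, 1, -1} : Finset ℤ), f j = f 0 + f 1 + f (-1) := by
    intro f
    rw [Finset.sum_insert (by decide), Finset.sum_insert (by decide), Finset.sum_singleton]
    ring
  rw [hsum]
  have hT : (T3f n1 n2 F1 F3) x y = F1 (((3 : ℕ) : ZMod (2 ^ r)) * x) (y * ((3 : ℕ) : ZMod (2 ^ s))⁻¹) +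
      (F1 (x * ((3 : ℕ) : ZMod (2 ^ r))⁻¹) (((3 : ℕ) : ZMod (2 ^ s)) * y) +
      (F1 + F3 + opC F3 : Fn (2 ^ r) (2 ^ s)) (x * ((3 : ℕ) : ZMod (2 ^ r))⁻¹ + (n1 : ZMod (2 ^ r)))
        (((3 : ℕ) : ZMod (2 ^ s)) * y * (1 + 4 * (n1 : ZMod (2 ^ s)) * (((3 : ℕ) : ZMod (2 ^ s)) * y))⁻¹) +
      (F1 + F3 + opC' (opC' F3) : Fn (2 ^ r) (2 ^ s)) (x * ((3 : ℕ) : ZMod (2 ^ r))⁻¹ + (n2 : ZMod (2 ^ r)))
        (((3 : ℕ) : ZMod (2 ^ s)) * y *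
          (1 + 4 * (n2 : ZMod (2 ^ s)) * (((3 : ℕ) : ZMod (2 ^ s)) * y))⁻¹)) := rfl
  rw [hT]
  -- the four terms
  have t0 : edgeF 1 1 0 0 1 G (((3 : ℕ) : ZMod (2 ^ r)) * x) (y * ((3 : ℕ) : ZMod (2 ^ s))⁻¹) =
      F1 (((3 : ℕ) : ZMod (2 ^ r)) * x) (y * ((3 : ℕ) : ZMod (2 ^ s))⁻¹) := (hF1 _ _).symm
  have t1 : edgeF 1 1 0 (2 * 0) ((3 : ℕ) : ℤ) G
      ((x - ((0 : ℤ) : ZMod (2 ^ r))) * ((3 : ℕ) : ZMod (2 ^ r))⁻¹)
      (((3 : ℕ) : ZMod (2 ^ s)) * y * (1 - 4 * ((0 : ℤ) : ZMod (2 ^ s)) * y)⁻¹) =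
      F1 (x * ((3 : ℕ) : ZMod (2 ^ r))⁻¹) (((3 : ℕ) : ZMod (2 ^ s)) * y) := by
    have e1 : (x - ((0 : ℤ) : ZMod (2 ^ r))) * ((3 : ℕ) : ZMod (2 ^ r))⁻¹ =
        x * ((3 : ℕ) : ZMod (2 ^ r))⁻¹ := by push_cast; ring
    have e2 : ((3 : ℕ) : ZMod (2 ^ s)) * y * (1 - 4 * ((0 : ℤ) : ZMod (2 ^ s)) * y)⁻¹ =
        ((3 : ℕ) : ZMod (2 ^ s)) * y := by
      have h1 := frac_eq (X := ((3 : ℕ) : ZMod (2 ^ s)) * y)
        (Y := ((3 : ℕ) : ZMod (2 ^ s)) * y) (isUnit_four' ((0 : ℤ) : ZMod (2 ^ s)) y)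
        (isUnit_one (M := ZMod (2 ^ s))) (by push_cast; ring)
      have h2 : (1 : ZMod (2 ^ s))⁻¹ = 1 := by
        have := inv_aux (isUnit_one (M := ZMod (2 ^ s)))
        rwa [one_mul] at this
      rw [h1, h2, mul_one]
    rw [e1, e2]
    have hP := hPlA 1 r s (x * ((3 : ℕ) : ZMod (2 ^ r))⁻¹) (((3 : ℕ) : ZMod (2 ^ s)) * y)
    rw [hv1 _ _ _ _ _ _ hP, hE 1 0 (2 * 0) ((3 : ℕ) : ℤ) (Or.inl one_ne_zero)
      (Or.inr (by norm_num)) _ _ _ _ _ _ hP]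
    have h3 := hnz _ _ _ _ _ _ 0 1 hP (Or.inr one_ne_zero)
    simp only [mul_zero, mul_one, zero_add, add_zero] at h3 ⊢
    congr 1
    have h4 := hH 3 _ _ (by norm_num) h3
    rw [← h4]
    congr 1 <;> push_cast <;> ring
  have t2 : edgeF 1 1 0 (2 * 1) ((3 : ℕ) : ℤ) G
      ((x - ((1 : ℤ) : ZMod (2 ^ r))) * ((3 : ℕ) : ZMod (2 ^ r))⁻¹)
      (((3 : ℕ) : ZMod (2 ^ s)) * y * (1 - 4 * ((1 : ℤ) : ZMod (2 ^ s)) * y)⁻¹) =
      (F1 + F3 + opC F3 : Fn (2 ^ r) (2 ^ s)) (x * ((3 : ℕ) : ZMod (2 ^ r))⁻¹ + (n1 : ZMod (2 ^ r)))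
        (((3 : ℕ) : ZMod (2 ^ s)) * y *
          (1 + 4 * (n1 : ZMod (2 ^ s)) * (((3 : ℕ) : ZMod (2 ^ s)) * y))⁻¹) := by
    have e1 : (x - ((1 : ℤ) : ZMod (2 ^ r))) * ((3 : ℕ) : ZMod (2 ^ r))⁻¹ =
        x * ((3 : ℕ) : ZMod (2 ^ r))⁻¹ + (n1 : ZMod (2 ^ r)) := by
      have h1 := k1 r (by omega)
      push_cast at i3r ⊢
      linear_combination (-(3 : ZMod (2 ^ r))⁻¹) * h1 + (n1 : ZMod (2 ^ r)) * i3r
    have e2 : 1 + 4 * (n1 : ZMod (2 ^ s)) * (((3 : ℕ) : ZMod (2 ^ s)) * y) =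
        1 - 4 * ((1 : ℤ) : ZMod (2 ^ s)) * y := by
      have h1 := k1 s (by omega)
      push_cast
      linear_combination (4 * y) * h1
    rw [e1, e2]
    set x1 := x * ((3 : ℕ) : ZMod (2 ^ r))⁻¹ + (n1 : ZMod (2 ^ r)) with hx1
    set y1 := ((3 : ℕ) : ZMod (2 ^ s)) * y * (1 - 4 * ((1 : ℤ) : ZMod (2 ^ s)) * y)⁻¹ with hy1
    have hP := hPlA 1 r s x1 y1
    have h5 : (F1 + F3 + opC F3 : Fn (2 ^ r) (2 ^ s)) x1 y1 = F1 x1 y1 + F3 x1 y1 + (opC F3) x1 y1 :=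
      rfl
    rw [h5, hv1 _ _ _ _ _ _ hP, hv3 _ _ _ _ _ _ hP, hC _ _ _ _ _ _ hP,
      hE 1 0 (2 * 1) ((3 : ℕ) : ℤ) (Or.inl one_ne_zero)
      (Or.inr (by norm_num)) _ _ _ _ _ _ hP]
    generalize (x1.val : ℤ) = b
    generalize rY 1 x1 y1 = c
    generalize (1 + 2 ^ (1 + 1) * b * c) = d
    have q1 : (1 : ℤ) * (2 * 1) + 2 * b * ((3 : ℕ) : ℤ) = 2 * 1 + 6 * b := by push_cast; ring
    have q2 : 2 * c * (2 * 1) + d * ((3 : ℕ) : ℤ) = 4 * c + 3 * d := by push_cast; ring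
    rw [q1, q2]
    simp only [mul_one, mul_zero, add_zero]
    linear_combination (G (2 * b) d - G (1 + 2 * b) (2 * c + d)) * two
  have t3 : edgeF 1 1 0 (2 * -1) ((3 : ℕ) : ℤ) G
      ((x - ((-1 : ℤ) : ZMod (2 ^ r))) * ((3 : ℕ) : ZMod (2 ^ r))⁻¹)
      (((3 : ℕ) : ZMod (2 ^ s)) * y * (1 - 4 * ((-1 : ℤ) : ZMod (2 ^ s)) * y)⁻¹) =
      (F1 + F3 + opC' (opC' F3) : Fn (2 ^ r) (2 ^ s))
        (x * ((3 : ℕ) : ZMod (2 ^ r))⁻¹ + (n2 : ZMod (2 ^ r)))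
        (((3 : ℕ) : ZMod (2 ^ s)) * y *
          (1 + 4 * (n2 : ZMod (2 ^ s)) * (((3 : ℕ) : ZMod (2 ^ s)) * y))⁻¹) := by
    set x2 := x * ((3 : ℕ) : ZMod (2 ^ r))⁻¹ + (n2 : ZMod (2 ^ r)) with hx2
    set y2 := ((3 : ℕ) : ZMod (2 ^ s)) * y *
      (1 + 4 * (n2 : ZMod (2 ^ s)) * (((3 : ℕ) : ZMod (2 ^ s)) * y))⁻¹ with hy2
    have e1 : (x - ((-1 : ℤ) : ZMod (2 ^ r))) * ((3 : ℕ) : ZMod (2 ^ r))⁻¹ =
        x2 + ((1 : ℤ) : ZMod (2 ^ r)) := by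
      have h1 := k2 r (by omega)
      rw [hx2]
      push_cast at i3r ⊢
      linear_combination (-(3 : ZMod (2 ^ r))⁻¹) * h1 + ((n2 : ZMod (2 ^ r)) + 1) * i3r
    have e2 : ((3 : ℕ) : ZMod (2 ^ s)) * y * (1 - 4 * ((-1 : ℤ) : ZMod (2 ^ s)) * y)⁻¹ =
        y2 * (1 + 4 * ((1 : ℤ) : ZMod (2 ^ s)) * y2)⁻¹ := by
      refine frac_eq (isUnit_four' _ _) (isUnit_four _ _) ?_
      have h1 := k2 s (by omega)
      have h6 := inv_aux (isUnit_four (n2 : ZMod (2 ^ s)) (((3 : ℕ) : ZMod (2 ^ s)) * y))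
      have h7 : y2 * (1 + 4 * (n2 : ZMod (2 ^ s)) * (((3 : ℕ) : ZMod (2 ^ s)) * y)) =
          ((3 : ℕ) : ZMod (2 ^ s)) * y := by
        rw [hy2]
        linear_combination (((3 : ℕ) : ZMod (2 ^ s)) * y) * h6
      push_cast at h7 ⊢
      linear_combination (-1 : ZMod (2 ^ s)) * h7 + (4 * y * y2) * h1
    rw [e1, e2]
    have hP := hPlA 1 r s x2 y2
    have h5 : (F1 + F3 + opC' (opC' F3) : Fn (2 ^ r) (2 ^ s)) x2 y2 =
        F1 x2 y2 + F3 x2 y2 + (opC' (opC' F3)) x2 y2 := rfl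
    rw [h5, hv1 _ _ _ _ _ _ hP, hv3 _ _ _ _ _ _ hP, hC2 _ _ _ _ _ _ hP,
      hE 1 0 (2 * -1) ((3 : ℕ) : ℤ) (Or.inl one_ne_zero)
      (Or.inr (by norm_num)) _ _ _ _ _ _ (pl_A 1 hP)]
    generalize (x2.val : ℤ) = b
    generalize rY 1 x2 y2 = c
    generalize (1 + 2 ^ (1 + 1) * b * c) = d
    have q1 : (1 : ℤ) * (2 * -1) + 2 * (b + 1 * 1) * ((3 : ℕ) : ℤ) = 4 * 1 + 6 * b := by
      push_cast; ring
    have q2 : 2 * c * (2 * -1) + (d + 4 * 1 * c) * ((3 : ℕ) : ℤ) = 8 * c + 3 * d := by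
      push_cast; ring
    rw [q1, q2]
    simp only [mul_one, mul_zero, add_zero]
    linear_combination (G (2 * b) d - G (1 + 2 * b) (2 * c + d)) * two
  rw [t0, t1, t2, t3]

end Pool.Agent.Helper16.CV
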